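import Mathlib

/-!
Graph 3-colourability and matrix symmetry: the combinatorial core.

For a graph `G` on `Fin k` the matrix has the following main rows and columns (`Cell k`).
* `x v c t`: for a vertex `v`, a colour `c` and a bit `t`.
* `l v s t`: as a row the even triple of bits `(s, t, s + t)`, as a column the odd triple
  `(s, t, s + t + 1)`, at the vertex `v`; its `1`s at the lines `x v c a` tell the `c`-th bit `a`.
* `p u v c h` and `e u v c h`, `h ∈ Fin 4`: the points `h` and the edges `{h, h + 1}` of a 4-cycle,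
  for every two vertices `u`, `v` and every colour `c`. The points are matched to themselves and
  attached to `x u c (parity of h)`; the edges are attached to their two points and, if `u` and `v`
  are adjacent in `G`, to `x v c (parity of h)`.
Further rows and columns `J` give the classes of the main ones different numbers of `1`s.
-/

set_option autoImplicit false

namespace Pool.Agent.Lib.MP_e2e0ab_lc

/-- The main indices of rows and of columns. -/
inductive Cell (k : ℕ) : Type
  | x (v : Fin k) (c : Fin 3) (t : Bool) : Cell k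
  | l (v : Fin k) (s t : Bool) : Cell k
  | p (u v : Fin k) (c : Fin 3) (h : Fin 4) : Cell k
  | e (u v : Fin k) (c : Fin 3) (h : Fin 4) : Cell k
  deriving DecidableEq

/-- the parity of `h` -/
def par (h : Fin 4) : Bool := decide (h.val % 2 = 1)

/-- the even triples of bits -/
def evenT (s t : Bool) : Fin 3 → Bool := ![s, t, xor s t]

/-- the odd triples of bits -/
def oddT (s t : Bool) : Fin 3 → Bool := ![s, t, !(xor s t)]

/-- The entries of the matrix at the main indices: `CellRel G r c` says that the entry in row `r`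
and column `c` is `1`. -/
def CellRel {k : ℕ} (G : SimpleGraph (Fin k)) : Cell k → Cell k → Prop
  | .l v s t, .x v' c a => v = v' ∧ evenT s t c = a
  | .x v' c a, .l v s t => v = v' ∧ oddT s t c = a
  | .p u v c h, .p u' v' c' h' => u = u' ∧ v = v' ∧ c = c' ∧ h = h'
  | .p u _ c h, .x u' c' a => u = u' ∧ c = c' ∧ par h = a
  | .x u' c' a, .p u _ c h => u = u' ∧ c = c' ∧ par h = a
  | .e u v c h, .p u' v' c' h' => u = u' ∧ v = v' ∧ c = c' ∧ (h' = h ∨ h' = h + 1)
  | .p u' v' c' h', .e u v c h => u = u' ∧ v = v' ∧ c = c' ∧ (h' = h ∨ h' = h + 1)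
  | .e u v c h, .x v' c' a => v = v' ∧ c = c' ∧ G.Adj u v ∧ par h = a
  | .x v' c' a, .e u v c h => v = v' ∧ c = c' ∧ G.Adj u v ∧ par h = a
  | _, _ => False

/-- the main indices as a sum -/
def cellEquiv (k : ℕ) : Cell k ≃ (((Fin k × Fin 3) × Bool) ⊕ (Fin k × Bool × Bool)) ⊕
    ((((Fin k × Fin k) × Fin 3) × Fin 4) ⊕ (((Fin k × Fin k) × Fin 3) × Fin 4)) where
  toFun
    | .x v c t => .inl (.inl ((v, c), t))
    | .l v s t => .inl (.inr (v, s, t))
    | .p u v c h => .inr (.inl (((u, v), c), h))
    | .e u v c h => .inr (.inr (((u, v), c), h))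
  invFun
    | .inl (.inl ((v, c), t)) => .x v c t
    | .inl (.inr (v, s, t)) => .l v s t
    | .inr (.inl (((u, v), c), h)) => .p u v c h
    | .inr (.inr (((u, v), c), h)) => .e u v c h
  left_inv := by rintro (_ | _ | _ | _) <;> rfl
  right_inv := by rintro ((⟨⟨_, _⟩, _⟩ | ⟨_, _, _⟩) | (⟨⟨⟨_, _⟩, _⟩, _⟩ | ⟨⟨⟨_, _⟩, _⟩, _⟩)) <;> rfl

instance (k : ℕ) : Fintype (Cell k) := Fintype.ofEquiv _ (cellEquiv k).symm

theorem card_cell (k : ℕ) : Fintype.card (Cell k) = 24 * k ^ 2 + 10 * k := by
  rw [Fintype.card_congr (cellEquiv k)]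
  simp only [Fintype.card_sum, Fintype.card_prod, Fintype.card_fin, Fintype.card_bool]
  ring

/-- being in the same class -/
def Same {k : ℕ} : Cell k → Cell k → Prop
  | .x v c _, .x v' c' _ => v = v' ∧ c = c'
  | .l v _ _, .l v' _ _ => v = v'
  | .p u v c _, .p u' v' c' _ => u = u' ∧ v = v' ∧ c = c'
  | .e u v c _, .e u' v' c' _ => u = u' ∧ v = v' ∧ c = c'
  | _, _ => False

/-- The relation on all indices: the further ones `J` are related to the main ones by `D`. -/
def RelJ {k : ℕ} {J : Type} (G : SimpleGraph (Fin k)) (D : J → Cell k → Prop) :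
    Cell k ⊕ J → Cell k ⊕ J → Prop
  | .inl r, .inl c => CellRel G r c
  | .inl r, .inr j => D j r
  | .inr j, .inl c => D j c
  | .inr _, .inr _ => False

/-- The further indices see the classes, and give them different degrees. -/
structure Sep {k : ℕ} {J : Type} [Fintype J] (D : J → Cell k → Prop) (B : ℕ) (N : Cell k → ℕ) :
    Prop where
  congr : ∀ j r r', Same r r' → (D j r ↔ D j r')
  big : Fintype.card (Cell k) < B
  deg : ∀ r, Nat.card {j // D j r} = B * N r
  pos : ∀ r, 1 ≤ N r
  inj : ∀ r r', N r = N r' → Same r r'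

section

variable {k : ℕ} {G : SimpleGraph (Fin k)} {J : Type} [Fintype J] {D : J → Cell k → Prop} {B : ℕ}
  {N : Cell k → ℕ}

/-- the number of the class; `0` for the further indices -/
def qn (N : Cell k → ℕ) : Cell k ⊕ J → ℕ
  | .inl r => N r
  | .inr _ => 0

open Classical in
/-- number of ones in a row -/
noncomputable def rowdeg (G : SimpleGraph (Fin k)) (D : J → Cell k → Prop) (r : Cell k ⊕ J) : ℕ :=
  ∑ c, if RelJ G D r c then 1 else 0

open Classical in
/-- number of ones in a column -/
noncomputable def coldeg (G : SimpleGraph (Fin k)) (D : J → Cell k → Prop) (c : Cell k ⊕ J) : ℕ :=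
  ∑ r, if RelJ G D r c then 1 else 0

open Classical in
theorem sum_cell_lt (hD : Sep D B N) (f : Cell k → Prop) : (∑ c, if f c then 1 else 0) < B := by
  have h : (∑ c : Cell k, if f c then 1 else 0) ≤ ∑ _c : Cell k, 1 :=
    Finset.sum_le_sum fun c _ => by split_ifs <;> omega
  have h1 := hD.big
  simp only [Finset.sum_const, Finset.card_univ, smul_eq_mul, mul_one] at h
  omega

open Classical in
theorem sum_deg (hD : Sep D B N) (r : Cell k) (f : J → Prop) (hf : ∀ j, f j ↔ D j r) :
    (∑ j, if f j then 1 else 0) = B * N r := by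
  rw [← hD.deg r, Nat.card_eq_fintype_card, Fintype.card_subtype, Finset.card_filter]
  refine Finset.sum_congr rfl fun j _ => ?_
  by_cases h1 : f j
  · rw [if_pos h1, if_pos ((hf j).1 h1)]
  · rw [if_neg h1, if_neg (fun h2 => h1 ((hf j).2 h2))]

theorem rowdeg_eq (hD : Sep D B N) (r : Cell k ⊕ J) :
    ∃ a < B, rowdeg G D r = a + B * qn N r := by
  classical
  cases r with
  | inl r =>
    refine ⟨_, sum_cell_lt hD (fun c => CellRel G r c), ?_⟩
    unfold rowdeg
    rw [Fintype.sum_sum_type]
    congr 1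
    exact sum_deg hD r _ (fun s => Iff.rfl)
  | inr j =>
    refine ⟨_, sum_cell_lt hD (fun c : Cell k => D j c), ?_⟩
    unfold rowdeg
    rw [Fintype.sum_sum_type]
    congr 1
    simp [RelJ, qn]

theorem coldeg_eq (hD : Sep D B N) (r : Cell k ⊕ J) :
    ∃ a < B, coldeg G D r = a + B * qn N r := by
  classical
  cases r with
  | inl r =>
    refine ⟨_, sum_cell_lt hD (fun c => CellRel G c r), ?_⟩
    unfold coldeg
    rw [Fintype.sum_sum_type]
    congr 1
    exact sum_deg hD r _ (fun s => Iff.rfl)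
  | inr j =>
    refine ⟨_, sum_cell_lt hD (fun c : Cell k => D j c), ?_⟩
    unfold coldeg
    rw [Fintype.sum_sum_type]
    congr 1
    simp [RelJ, qn]

/-- A permutation that makes the matrix symmetric preserves the classes. -/
theorem qn_eq (hD : Sep D B N) {π : Equiv.Perm (Cell k ⊕ J)}
    (hπ : ∀ r c, RelJ G D (π r) c ↔ RelJ G D (π c) r) (r : Cell k ⊕ J) :
    qn N (π r) = qn N r := by
  classical
  have h1 : rowdeg G D (π r) = coldeg G D r := by
    unfold rowdeg coldeg
    rw [← Equiv.sum_comp π (fun c => if RelJ G D c r then 1 else 0)]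
    refine Finset.sum_congr rfl fun c _ => ?_
    simp only [hπ r c]
  obtain ⟨a, ha, h2⟩ := rowdeg_eq (G := G) hD (π r)
  obtain ⟨b, hb, h3⟩ := coldeg_eq (G := G) hD r
  rw [h2, h3] at h1
  have hpos : 0 < B := by omega
  have h4 := congrArg (fun m => m / B) h1
  simp only [Nat.add_mul_div_left _ _ hpos, Nat.div_eq_of_lt ha, Nat.div_eq_of_lt hb] at h4
  omega

theorem exists_cell (hD : Sep D B N) {π : Equiv.Perm (Cell k ⊕ J)}
    (hπ : ∀ r c, RelJ G D (π r) c ↔ RelJ G D (π c) r)
    (r : Cell k) : ∃ r', π (.inl r) = .inl r' ∧ Same r' r := by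
  have h := qn_eq hD hπ (.inl r)
  have hp := hD.pos r
  cases h1 : π (.inl r) with
  | inl r' =>
    rw [h1] at h
    exact ⟨r', rfl, hD.inj _ _ h⟩
  | inr s =>
    rw [h1] at h
    have h2 : 0 = N r := h
    omega

theorem exists_bit (hD : Sep D B N) {π : Equiv.Perm (Cell k ⊕ J)}
    (hπ : ∀ r c, RelJ G D (π r) c ↔ RelJ G D (π c) r)
    (v : Fin k) (c : Fin 3) : ∃ b : Bool, ∀ t, π (.inl (.x v c t)) = .inl (.x v c (xor t b)) := by
  have h1 : ∀ t, ∃ t', π (.inl (.x v c t)) = .inl (.x v c t') := by
    intro t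
    obtain ⟨r', h2, h3⟩ := exists_cell hD hπ (.x v c t)
    cases r' with
    | x v' c' t' =>
      obtain ⟨h4, h5⟩ : v' = v ∧ c' = c := h3
      subst h4 h5
      exact ⟨t', h2⟩
    | l v s t => exact absurd h3 (by simp [Same])
    | p u v c q => exact absurd h3 (by simp [Same])
    | e u v c q => exact absurd h3 (by simp [Same])
  obtain ⟨b, hb⟩ := h1 false
  obtain ⟨c', hc⟩ := h1 true
  have hbc : b ≠ c' := by
    intro h
    rw [h, ← hc] at hb
    have := π.injective hb
    simp at this
  refine ⟨b, fun t => ?_⟩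
  cases t with
  | false => simpa using hb
  | true =>
    rw [hc]
    cases b <;> cases c' <;> simp_all

theorem evenT_sum (s t : Bool) : xor (xor (evenT s t 0) (evenT s t 1)) (evenT s t 2) = false := by
  cases s <;> cases t <;> rfl

theorem oddT_sum (s t : Bool) : xor (xor (oddT s t 0) (oddT s t 1)) (oddT s t 2) = true := by
  cases s <;> cases t <;> rfl

/-- The bits of a vertex have an odd sum. -/
theorem bits_odd (hD : Sep D B N) {π : Equiv.Perm (Cell k ⊕ J)}
    (hπ : ∀ r c, RelJ G D (π r) c ↔ RelJ G D (π c) r)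
    {x : Fin k → Fin 3 → Bool}
    (hx : ∀ v c t, π (.inl (.x v c t)) = .inl (.x v c (xor t (x v c)))) (v : Fin k) :
    xor (xor (x v 0) (x v 1)) (x v 2) = true := by
  obtain ⟨r', h2, h3⟩ := exists_cell hD hπ (.l v false false)
  cases r' with
  | l v' s t =>
    have h4 : v' = v := h3
    subst h4
    have key : ∀ c, evenT s t c = xor (oddT false false c) (x v' c) := by
      intro c
      have h5 := hπ (.inl (.l v' false false)) (.inl (.x v' c (evenT s t c)))
      rw [h2, hx] at h5
      have h6 : RelJ G D (.inl (.l v' s t)) (.inl (.x v' c (evenT s t c))) := ⟨rfl, rfl⟩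
      have h7 := (h5.1 h6).2
      have h8 : oddT false false c = xor (evenT s t c) (x v' c) := h7
      rw [h8]
      cases evenT s t c <;> cases x v' c <;> rfl
    have h5 := evenT_sum s t
    rw [key 0, key 1, key 2] at h5
    have h6 := oddT_sum false false
    revert h5 h6
    cases oddT false false 0 <;> cases oddT false false 1 <;> cases oddT false false 2 <;>
      cases x v' 0 <;> cases x v' 1 <;> cases x v' 2 <;> simp
  | x v c t => exact absurd h3 (by simp [Same])
  | p u v c q => exact absurd h3 (by simp [Same])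
  | e u v c q => exact absurd h3 (by simp [Same])

/-- The finite heart: no involution of four points exchanges the parities and maps the edges of the
4-cycle to edges of the other parity. -/
theorem no_involution (g e : Fin 4 → Fin 4) (h1 : ∀ h, g (g h) = h)
    (h2 : ∀ h, par (g h) = !par h) (h3 : ∀ h, par (e h) = !par h)
    (h4 : ∀ h h', (h' = e h ∨ h' = e h + 1) ↔ (h = g h' ∨ h + 1 = g h')) : False := by
  have hpar : ∀ a : Fin 4, par a = false → a = 0 ∨ a = 2 := by decide
  have hpar' : ∀ a : Fin 4, par a = true → a = 1 ∨ a = 3 := by decide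
  rcases hpar' (e 0) (by rw [h3]; decide) with h5 | h5
  · have h6 := (h4 0 1).1 (by rw [h5]; decide)
    have h7 := (h4 0 2).1 (by rw [h5]; decide)
    have h8 := hpar (g 1) (by rw [h2]; decide)
    have h9 := hpar' (g 2) (by rw [h2]; decide)
    have h10 : g 1 = 0 := by
      rcases h6 with h | h
      · exact h.symm
      · rw [← h] at h8
        exact absurd h8 (by decide)
    have h11 : g 2 = 1 := by
      rcases h7 with h | h
      · rw [← h] at h9
        exact absurd h9 (by decide)
      · exact h.symm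
    have h12 := h1 2
    rw [h11, h10] at h12
    exact absurd h12 (by decide)
  · have h6 := (h4 0 3).1 (by rw [h5]; decide)
    have h7 := (h4 0 0).1 (by rw [h5]; decide)
    have h8 := hpar (g 3) (by rw [h2]; decide)
    have h9 := hpar' (g 0) (by rw [h2]; decide)
    have h10 : g 3 = 0 := by
      rcases h6 with h | h
      · exact h.symm
      · rw [← h] at h8
        exact absurd h8 (by decide)
    have h11 : g 0 = 1 := by
      rcases h7 with h | h
      · rw [← h] at h9
        exact absurd h9 (by decide)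
      · exact h.symm
    have h12 := h1 3
    rw [h10, h11] at h12
    exact absurd h12 (by decide)

/-- The bits of one colour at adjacent vertices are not both true. -/
theorem not_both (hD : Sep D B N) {π : Equiv.Perm (Cell k ⊕ J)}
    (hπ : ∀ r c, RelJ G D (π r) c ↔ RelJ G D (π c) r)
    {x : Fin k → Fin 3 → Bool}
    (hx : ∀ v c t, π (.inl (.x v c t)) = .inl (.x v c (xor t (x v c)))) {u v : Fin k} {c : Fin 3}
    (huv : G.Adj u v) (hu : x u c = true) (hv : x v c = true) : False := by
  have hP : ∀ h, ∃ h', π (.inl (.p u v c h)) = .inl (.p u v c h') := by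
    intro h
    obtain ⟨r', h2, h3⟩ := exists_cell hD hπ (.p u v c h)
    cases r' with
    | p u' v' c' q =>
      obtain ⟨h4, h5, h6⟩ : u' = u ∧ v' = v ∧ c' = c := h3
      subst h4 h5 h6
      exact ⟨q, h2⟩
    | x v c t => exact absurd h3 (by simp [Same])
    | l v s t => exact absurd h3 (by simp [Same])
    | e u v c q => exact absurd h3 (by simp [Same])
  have hE : ∀ h, ∃ h', π (.inl (.e u v c h)) = .inl (.e u v c h') := by
    intro h
    obtain ⟨r', h2, h3⟩ := exists_cell hD hπ (.e u v c h)
    cases r' with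
    | e u' v' c' q =>
      obtain ⟨h4, h5, h6⟩ : u' = u ∧ v' = v ∧ c' = c := h3
      subst h4 h5 h6
      exact ⟨q, h2⟩
    | x v c t => exact absurd h3 (by simp [Same])
    | l v s t => exact absurd h3 (by simp [Same])
    | p u v c q => exact absurd h3 (by simp [Same])
  choose g hg using hP
  choose e he using hE
  refine no_involution g e ?_ ?_ ?_ ?_
  · intro h
    have h1 := hπ (.inl (.p u v c h)) (.inl (.p u v c (g h)))
    rw [hg, hg] at h1
    have h2 : RelJ G D (.inl (.p u v c (g h))) (.inl (.p u v c (g h))) := ⟨rfl, rfl, rfl, rfl⟩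
    exact (h1.1 h2).2.2.2
  · intro h
    have h1 := hπ (.inl (.p u v c h)) (.inl (.x u c (par (g h))))
    rw [hg, hx, hu] at h1
    have h2 : RelJ G D (.inl (.p u v c (g h))) (.inl (.x u c (par (g h)))) := ⟨rfl, rfl, rfl⟩
    have h3 : par h = xor (par (g h)) true := (h1.1 h2).2.2
    rw [h3]
    cases par (g h) <;> rfl
  · intro h
    have h1 := hπ (.inl (.e u v c h)) (.inl (.x v c (par (e h))))
    rw [he, hx, hv] at h1
    have h2 : RelJ G D (.inl (.e u v c (e h))) (.inl (.x v c (par (e h)))) := ⟨rfl, rfl, huv, rfl⟩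
    have h3 : par h = xor (par (e h)) true := (h1.1 h2).2.2.2
    rw [h3]
    cases par (e h) <;> rfl
  · intro h h'
    have h1 := hπ (.inl (.e u v c h)) (.inl (.p u v c h'))
    rw [he, hg] at h1
    have h2 : RelJ G D (.inl (.e u v c (e h))) (.inl (.p u v c h')) ↔ (h' = e h ∨ h' = e h + 1) :=
      ⟨fun h => h.2.2.2, fun h => ⟨rfl, rfl, rfl, h⟩⟩
    have h3 : RelJ G D (.inl (.p u v c (g h'))) (.inl (.e u v c h)) ↔ (g h' = h ∨ g h' = h + 1) :=
      ⟨fun h => h.2.2.2, fun h => ⟨rfl, rfl, rfl, h⟩⟩
    rw [h2, h3] at h1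
    rw [h1, eq_comm, eq_comm (a := g h') (b := h + 1)]

/-- From a symmetric reordering to a 3-colouring. -/
theorem colorable_of_perm (hD : Sep D B N) {π : Equiv.Perm (Cell k ⊕ J)}
    (hπ : ∀ r c, RelJ G D (π r) c ↔ RelJ G D (π c) r) : G.Colorable 3 := by
  choose x hx using exists_bit hD hπ
  have h1 : ∀ v, ∃ c, x v c = true := by
    intro v
    have h2 := bits_odd hD hπ hx v
    by_contra h3
    push Not at h3
    have h4 := h3 0
    have h5 := h3 1
    have h6 := h3 2
    simp only [Bool.not_eq_true] at h4 h5 h6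
    rw [h4, h5, h6] at h2
    exact absurd h2 (by decide)
  choose f hf using h1
  refine ⟨SimpleGraph.Coloring.mk f ?_⟩
  intro v w hvw hfc
  exact not_both hD hπ hx hvw (hf v) (hfc ▸ hf w)

/-- the action on the points -/
def gact (a b : Bool) (h : Fin 4) : Fin 4 := if a then 1 - h else if b then -h else h

/-- the action on the edges -/
def eact (a b : Bool) (h : Fin 4) : Fin 4 := if a then -h else if b then 3 - h else h

theorem gact_gact : ∀ a b h, gact a b (gact a b h) = h := by decide

theorem eact_eact : ∀ a b h, eact a b (eact a b h) = h := by decide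

theorem par_gact : ∀ a b h, par (gact a b h) = xor (par h) a := by decide

theorem par_eact : ∀ a b h, ¬ (a = true ∧ b = true) → par (eact a b h) = xor (par h) b := by
  decide

theorem edge_act : ∀ a b h h', (h' = eact a b h ∨ h' = eact a b h + 1) ↔
    (gact a b h' = h ∨ gact a b h' = h + 1) := by decide

/-- the reordering of a colouring, on the main indices -/
def act (x : Fin k → Fin 3 → Bool) : Cell k → Cell k
  | .x v c t => .x v c (xor t (x v c))
  | .l v s t => .l v (xor s (x v 0)) (xor t (x v 1))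
  | .p u v c h => .p u v c (gact (x u c) (x v c) h)
  | .e u v c h => .e u v c (eact (x u c) (x v c) h)

theorem act_act (x : Fin k → Fin 3 → Bool) (r : Cell k) : act x (act x r) = r := by
  cases r with
  | x v c t => simp [act]
  | l v s t => simp [act]
  | p u v c h => simp [act, gact_gact]
  | e u v c h => simp [act, eact_eact]

theorem same_act (x : Fin k → Fin 3 → Bool) (r : Cell k) : Same (act x r) r := by
  cases r with
  | x v c t => exact ⟨rfl, rfl⟩
  | l v s t => exact rfl
  | p u v c h => exact ⟨rfl, rfl, rfl⟩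
  | e u v c h => exact ⟨rfl, rfl, rfl⟩

theorem xor_eq_iff (a b c : Bool) : xor a b = c ↔ a = xor c b := by
  cases a <;> cases b <;> cases c <;> simp

theorem even_odd {x : Fin k → Fin 3 → Bool} {v : Fin k}
    (hx : xor (xor (x v 0) (x v 1)) (x v 2) = true) (s t : Bool) (c : Fin 3) :
    evenT (xor s (x v 0)) (xor t (x v 1)) c = xor (oddT s t c) (x v c) := by
  fin_cases c
  · rfl
  · rfl
  · show xor (xor s (x v 0)) (xor t (x v 1)) = xor (!(xor s t)) (x v 2)
    revert hx
    cases s <;> cases t <;> cases x v 0 <;> cases x v 1 <;> cases x v 2 <;> simp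

theorem odd_even {x : Fin k → Fin 3 → Bool} {v : Fin k}
    (hx : xor (xor (x v 0) (x v 1)) (x v 2) = true) (s t : Bool) (c : Fin 3) :
    oddT (xor s (x v 0)) (xor t (x v 1)) c = xor (evenT s t c) (x v c) := by
  fin_cases c
  · rfl
  · rfl
  · show (!(xor (xor s (x v 0)) (xor t (x v 1)))) = xor (xor s t) (x v 2)
    revert hx
    cases s <;> cases t <;> cases x v 0 <;> cases x v 1 <;> cases x v 2 <;> simp

/-- the symmetry condition on main indices -/
theorem cellRel_act {x : Fin k → Fin 3 → Bool}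
    (hodd : ∀ v, xor (xor (x v 0) (x v 1)) (x v 2) = true)
    (hadj : ∀ u v c, G.Adj u v → ¬ (x u c = true ∧ x v c = true)) (r c : Cell k) :
    CellRel G (act x r) c ↔ CellRel G (act x c) r := by
  have hlx : ∀ v s t v' c a, CellRel G (act x (.l v s t)) (.x v' c a) ↔
      CellRel G (act x (.x v' c a)) (.l v s t) := by
    intro v s t v' c a
    show (v = v' ∧ evenT (xor s (x v 0)) (xor t (x v 1)) c = a) ↔
      (v = v' ∧ oddT s t c = xor a (x v' c))
    constructor
    · rintro ⟨rfl, h⟩
      rw [even_odd (hodd v), xor_eq_iff] at h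
      exact ⟨rfl, h⟩
    · rintro ⟨rfl, h⟩
      rw [even_odd (hodd v), xor_eq_iff]
      exact ⟨rfl, h⟩
  have hpx : ∀ u v c h u' c' a, CellRel G (act x (.p u v c h)) (.x u' c' a) ↔
      CellRel G (act x (.x u' c' a)) (.p u v c h) := by
    intro u v c h u' c' a
    show (u = u' ∧ c = c' ∧ par (gact (x u c) (x v c) h) = a) ↔
      (u = u' ∧ c = c' ∧ par h = xor a (x u' c'))
    rw [par_gact, xor_eq_iff]
    constructor
    · rintro ⟨rfl, rfl, h⟩
      exact ⟨rfl, rfl, h⟩
    · rintro ⟨rfl, rfl, h⟩
      exact ⟨rfl, rfl, h⟩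
  have hex : ∀ u v c h v' c' a, CellRel G (act x (.e u v c h)) (.x v' c' a) ↔
      CellRel G (act x (.x v' c' a)) (.e u v c h) := by
    intro u v c h v' c' a
    show (v = v' ∧ c = c' ∧ G.Adj u v ∧ par (eact (x u c) (x v c) h) = a) ↔
      (v = v' ∧ c = c' ∧ G.Adj u v ∧ par h = xor a (x v' c'))
    constructor
    · rintro ⟨rfl, rfl, h1, h2⟩
      rw [par_eact _ _ _ (hadj u v c h1), xor_eq_iff] at h2
      exact ⟨rfl, rfl, h1, h2⟩
    · rintro ⟨rfl, rfl, h1, h2⟩
      refine ⟨rfl, rfl, h1, ?_⟩
      rw [par_eact _ _ _ (hadj u v c h1), xor_eq_iff]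
      exact h2
  have hep : ∀ u v c h u' v' c' h', CellRel G (act x (.e u v c h)) (.p u' v' c' h') ↔
      CellRel G (act x (.p u' v' c' h')) (.e u v c h) := by
    intro u v c h u' v' c' h'
    show (u = u' ∧ v = v' ∧ c = c' ∧ (h' = eact (x u c) (x v c) h ∨
        h' = eact (x u c) (x v c) h + 1)) ↔
      (u = u' ∧ v = v' ∧ c = c' ∧ (gact (x u' c') (x v' c') h' = h ∨
        gact (x u' c') (x v' c') h' = h + 1))
    constructor
    · rintro ⟨rfl, rfl, rfl, h1⟩
      exact ⟨rfl, rfl, rfl, (edge_act _ _ _ _).1 h1⟩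
    · rintro ⟨rfl, rfl, rfl, h1⟩
      exact ⟨rfl, rfl, rfl, (edge_act _ _ _ _).2 h1⟩
  have hpp : ∀ u v c h u' v' c' h', CellRel G (act x (.p u v c h)) (.p u' v' c' h') →
      CellRel G (act x (.p u' v' c' h')) (.p u v c h) := by
    intro u v c h u' v' c' h'
    show (u = u' ∧ v = v' ∧ c = c' ∧ gact (x u c) (x v c) h = h') →
      (u' = u ∧ v' = v ∧ c' = c ∧ gact (x u' c') (x v' c') h' = h)
    rintro ⟨rfl, rfl, rfl, rfl⟩
    exact ⟨rfl, rfl, rfl, gact_gact _ _ _⟩
  cases r with
  | x v c' t =>
    cases c with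
    | x _ _ _ => exact Iff.rfl
    | l _ _ _ => exact (hlx _ _ _ _ _ _).symm
    | p _ _ _ _ => exact (hpx _ _ _ _ _ _ _).symm
    | e _ _ _ _ => exact (hex _ _ _ _ _ _ _).symm
  | l v s t =>
    cases c with
    | x _ _ _ => exact hlx _ _ _ _ _ _
    | l _ _ _ => exact Iff.rfl
    | p _ _ _ _ => exact Iff.rfl
    | e _ _ _ _ => exact Iff.rfl
  | p u v c' h =>
    cases c with
    | x _ _ _ => exact hpx _ _ _ _ _ _ _
    | l _ _ _ => exact Iff.rfl
    | p _ _ _ _ => exact ⟨hpp _ _ _ _ _ _ _ _, hpp _ _ _ _ _ _ _ _⟩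
    | e _ _ _ _ => exact (hep _ _ _ _ _ _ _ _).symm
  | e u v c' h =>
    cases c with
    | x _ _ _ => exact hex _ _ _ _ _ _ _
    | l _ _ _ => exact Iff.rfl
    | p _ _ _ _ => exact hep _ _ _ _ _ _ _ _
    | e _ _ _ _ => exact Iff.rfl

/-- From a 3-colouring to a symmetric reordering. -/
theorem perm_of_colorable (hD : Sep D B N) (hG : G.Colorable 3) :
    ∃ π : Equiv.Perm (Cell k ⊕ J), ∀ r c, RelJ G D (π r) c ↔ RelJ G D (π c) r := by
  obtain ⟨f⟩ := hG
  let x : Fin k → Fin 3 → Bool := fun v c => decide (f v = c)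
  have hodd : ∀ v, xor (xor (x v 0) (x v 1)) (x v 2) = true := by
    intro v
    have h1 : ∀ a : Fin 3, xor (xor (decide (a = 0)) (decide (a = 1))) (decide (a = 2)) = true := by
      decide
    exact h1 (f v)
  have hadj : ∀ u v c, G.Adj u v → ¬ (x u c = true ∧ x v c = true) := by
    rintro u v c huv ⟨h1, h2⟩
    have h3 := f.valid huv
    have h4 : f u = c := of_decide_eq_true h1
    have h5 : f v = c := of_decide_eq_true h2
    exact h3 (h4.trans h5.symm)
  have hinv : Function.Involutive (Sum.map (act x) id :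
      Cell k ⊕ J → Cell k ⊕ J) := by
    rintro (r | s)
    · simp [act_act]
    · rfl
  refine ⟨hinv.toPerm, ?_⟩
  rintro (r | s) (c | s')
  · exact cellRel_act hodd hadj r c
  · exact hD.congr _ _ _ (same_act x r)
  · exact (hD.congr _ _ _ (same_act x c)).symm
  · exact Iff.rfl

theorem main (hD : Sep D B N) : G.Colorable 3 ↔
    ∃ π : Equiv.Perm (Cell k ⊕ J), ∀ r c, RelJ G D (π r) c ↔ RelJ G D (π c) r :=
  ⟨perm_of_colorable hD, fun ⟨_, hπ⟩ => colorable_of_perm hD hπ⟩

end

end Pool.Agent.Lib.MP_e2e0ab_lc
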