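import Pool.Agent.Lib.MP_e2e0ab_lc.Core

/-!
The matrix of `Core` on the tuples of vertices: a quantifier-free interpretation in the ordered
graph. Main theorem `main_tup`.
-/

set_option autoImplicit false

namespace Pool.Agent.Lib.MP_e2e0ab_lc

/-- kinds of main indices -/
inductive MK : Type
  | x (c : Fin 3) (t : Bool) : MK
  | l (s t : Bool) : MK
  | p (c : Fin 3) (h : Fin 4) : MK
  | e (c : Fin 3) (h : Fin 4) : MK

/-- the kinds as a sum -/
def mkEquiv : MK ≃ ((Fin 3 × Bool) ⊕ (Bool × Bool)) ⊕ ((Fin 3 × Fin 4) ⊕ (Fin 3 × Fin 4)) where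
  toFun
    | .x c t => .inl (.inl (c, t))
    | .l s t => .inl (.inr (s, t))
    | .p c h => .inr (.inl (c, h))
    | .e c h => .inr (.inr (c, h))
  invFun
    | .inl (.inl (c, t)) => .x c t
    | .inl (.inr (s, t)) => .l s t
    | .inr (.inl (c, h)) => .p c h
    | .inr (.inr (c, h)) => .e c h
  left_inv := by rintro (_ | _ | _ | _) <;> rfl
  right_inv := by rintro ((⟨_, _⟩ | ⟨_, _⟩) | (⟨_, _⟩ | ⟨_, _⟩)) <;> rfl

instance : Fintype MK := Fintype.ofEquiv _ mkEquiv.symm

theorem card_mk : Fintype.card MK = 34 := by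
  rw [Fintype.card_congr mkEquiv]
  rfl

/-- the type of the class of a kind -/
def ty : MK → Fin 10
  | .x c _ => ⟨c.val, by omega⟩
  | .l _ _ => ⟨3, by omega⟩
  | .p c _ => ⟨4 + c.val, by omega⟩
  | .e c _ => ⟨7 + c.val, by omega⟩

/-- all kinds -/
abbrev KK : Type := MK ⊕ (Fin 10 × Option MK)

/-- all indices: a tuple of four vertices and a kind -/
abbrev Tup (k : ℕ) := (Fin 4 → Fin k) × KK

/-- the tuple is a proper main index of the kind -/
def isMK : MK → (Fin 4 → Fin 4 → Prop) → Prop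
  | .x _ _, e => e 2 0 ∧ e 3 1 ∧ e 1 0
  | .l _ _, e => e 2 0 ∧ e 3 1 ∧ e 1 0
  | .p _ _, e => e 2 0 ∧ e 3 1
  | .e _ _, e => e 2 0 ∧ e 3 1

/-- entries at the main kinds -/
def CRp : MK → MK → (Fin 4 → Fin 4 → Prop) → Prop → Prop → Prop
  | .l s t, .x c a, q, _, _ => q 0 0 ∧ evenT s t c = a
  | .x c a, .l s t, q, _, _ => q 0 0 ∧ oddT s t c = a
  | .p c h, .p c' h', q, _, _ => q 0 0 ∧ q 1 1 ∧ c = c' ∧ h = h'
  | .p c h, .x c' a, q, _, _ => q 0 0 ∧ c = c' ∧ par h = a
  | .x c' a, .p c h, q, _, _ => q 0 0 ∧ c = c' ∧ par h = a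
  | .e c h, .p c' h', q, _, _ => q 0 0 ∧ q 1 1 ∧ c = c' ∧ (h' = h ∨ h' = h + 1)
  | .p c' h', .e c h, q, _, _ => q 0 0 ∧ q 1 1 ∧ c = c' ∧ (h' = h ∨ h' = h + 1)
  | .e c h, .x c' a, q, A, _ => q 1 1 ∧ c = c' ∧ A ∧ par h = a
  | .x c' a, .e c h, q, _, A => q 1 1 ∧ c = c' ∧ A ∧ par h = a
  | _, _, _, _, _ => False

/-- a further index of type `τ` below a main one, lexicographically -/
def padLe (τ : Fin 10) (i : MK) (a b : Ordering) : Prop :=
  τ < ty i ∨ (τ = ty i ∧ (a = .lt ∨ (a = .eq ∧ b ≠ .gt)))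

/-- the entries in terms of the kinds, the order type and the adjacencies of the two tuples -/
def FP (κ κ' : KK) (o : Fin 4 ⊕ Fin 4 → Fin 4 ⊕ Fin 4 → Ordering)
    (A : Fin 4 ⊕ Fin 4 → Fin 4 ⊕ Fin 4 → Bool) : Prop :=
  match κ, κ' with
  | .inl i, .inl j => isMK i (fun a b => o (.inl a) (.inl b) = .eq) ∧
      isMK j (fun a b => o (.inr a) (.inr b) = .eq) ∧
      CRp i j (fun a b => o (.inl a) (.inr b) = .eq) (A (.inl 0) (.inl 1) = true)
        (A (.inr 0) (.inr 1) = true)
  | .inl i, .inr (τ, _) => isMK i (fun a b => o (.inl a) (.inl b) = .eq) ∧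
      padLe τ i (o (.inr 0) (.inl 0)) (o (.inr 1) (.inl 1))
  | .inr (τ, _), .inl i => isMK i (fun a b => o (.inr a) (.inr b) = .eq) ∧
      padLe τ i (o (.inl 0) (.inr 0)) (o (.inl 1) (.inr 1))
  | .inr _, .inr _ => False

section

variable {k : ℕ}

open Classical in
/-- the entry at two tuples -/
def RT (G : SimpleGraph (Fin k)) (r s : Tup k) : Prop :=
  FP r.2 s.2 (fun p q => compare (Sum.elim r.1 s.1 p) (Sum.elim r.1 s.1 q))
    (fun p q => decide (G.Adj (Sum.elim r.1 s.1 p) (Sum.elim r.1 s.1 q)))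

/-- first vertex -/
def c0 : Cell k → Fin k
  | .x v _ _ => v
  | .l v _ _ => v
  | .p u _ _ _ => u
  | .e u _ _ _ => u

/-- second vertex -/
def c1 : Cell k → Fin k
  | .x v _ _ => v
  | .l v _ _ => v
  | .p _ v _ _ => v
  | .e _ v _ _ => v

/-- kind -/
def kd : Cell k → MK
  | .x _ c t => .x c t
  | .l _ s t => .l s t
  | .p _ _ c h => .p c h
  | .e _ _ c h => .e c h

/-- the embedding of the main indices -/
def emb (r : Cell k) : Tup k := (![c0 r, c1 r, c0 r, c1 r], .inl (kd r))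

theorem emb_injective : Function.Injective (emb (k := k)) := by
  intro r s h
  have h1 : kd r = kd s := by
    have := congrArg Prod.snd h
    exact Sum.inl_injective this
  have h2 : c0 r = c0 s := congrFun (congrArg Prod.fst h) 0
  have h3 : c1 r = c1 s := congrFun (congrArg Prod.fst h) 1
  cases r <;> cases s <;> simp_all [kd, c0, c1]

theorem cmp_eq {a b : Fin k} : compare a b = .eq ↔ a = b := compare_eq_iff_eq

theorem isMK_emb (r : Cell k) :
    isMK (kd r) (fun a b => compare ((emb r).1 a) ((emb r).1 b) = .eq) := by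
  cases r with
  | x v c t => exact ⟨cmp_eq.2 rfl, cmp_eq.2 rfl, cmp_eq.2 rfl⟩
  | l v s t => exact ⟨cmp_eq.2 rfl, cmp_eq.2 rfl, cmp_eq.2 rfl⟩
  | p u v c h => exact ⟨cmp_eq.2 rfl, cmp_eq.2 rfl⟩
  | e u v c h => exact ⟨cmp_eq.2 rfl, cmp_eq.2 rfl⟩

theorem mem_range_of_isMK {a : Fin 4 → Fin k} {i : MK}
    (h : isMK i (fun p q => compare (a p) (a q) = .eq)) :
    ((a, .inl i) : Tup k) ∈ Set.range (emb (k := k)) := by
  cases i with
  | x c t =>
    obtain ⟨h1, h2, h3⟩ := h
    refine ⟨.x (a 0) c t, Prod.ext (funext fun q => ?_) rfl⟩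
    rw [cmp_eq] at h1 h2 h3
    fin_cases q
    · rfl
    · exact h3.symm
    · exact h1.symm
    · exact (h2.trans h3).symm
  | l s t =>
    obtain ⟨h1, h2, h3⟩ := h
    refine ⟨.l (a 0) s t, Prod.ext (funext fun q => ?_) rfl⟩
    rw [cmp_eq] at h1 h2 h3
    fin_cases q
    · rfl
    · exact h3.symm
    · exact h1.symm
    · exact (h2.trans h3).symm
  | p c h' =>
    obtain ⟨h1, h2⟩ := h
    refine ⟨.p (a 0) (a 1) c h', Prod.ext (funext fun q => ?_) rfl⟩
    rw [cmp_eq] at h1 h2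
    fin_cases q
    · rfl
    · rfl
    · exact h1.symm
    · exact h2.symm
  | e c h' =>
    obtain ⟨h1, h2⟩ := h
    refine ⟨.e (a 0) (a 1) c h', Prod.ext (funext fun q => ?_) rfl⟩
    rw [cmp_eq] at h1 h2
    fin_cases q
    · rfl
    · rfl
    · exact h1.symm
    · exact h2.symm

variable {G : SimpleGraph (Fin k)}

/-- main against main -/
theorem rt_emb (r s : Cell k) : RT G (emb r) (emb s) ↔ CellRel G r s := by
  classical
  have h0 : RT G (emb r) (emb s) ↔ CRp (kd r) (kd s)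
      (fun a b => compare ((emb r).1 a) ((emb s).1 b) = .eq)
      (decide (G.Adj (c0 r) (c1 r)) = true) (decide (G.Adj (c0 s) (c1 s)) = true) :=
    ⟨fun h => h.2.2, fun h => ⟨isMK_emb r, isMK_emb s, h⟩⟩
  rw [h0]
  have e0 : compare ((emb r).1 0) ((emb s).1 0) = .eq ↔ c0 r = c0 s := cmp_eq
  have e1 : compare ((emb r).1 1) ((emb s).1 1) = .eq ↔ c1 r = c1 s := cmp_eq
  cases r with
  | x v c t =>
    cases s with
    | x v' c' t' => exact Iff.rfl
    | l v' s' t' =>
      show (compare ((emb (Cell.x v c t)).1 0) ((emb (Cell.l v' s' t')).1 0) = .eq ∧ _) ↔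
        (v' = v ∧ _)
      rw [e0]
      exact and_congr eq_comm Iff.rfl
    | p u v' c' h =>
      show (compare ((emb (Cell.x v c t)).1 0) ((emb (Cell.p u v' c' h)).1 0) = .eq ∧ _) ↔
        (u = v ∧ _)
      rw [e0]
      exact and_congr eq_comm Iff.rfl
    | e u v' c' h =>
      show (compare ((emb (Cell.x v c t)).1 1) ((emb (Cell.e u v' c' h)).1 1) = .eq ∧
        c' = c ∧ decide (G.Adj u v') = true ∧ _) ↔ (v' = v ∧ c' = c ∧ G.Adj u v' ∧ _)
      rw [e1, decide_eq_true_iff]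
      exact and_congr eq_comm Iff.rfl
  | l v s' t =>
    cases s with
    | x v' c' t' =>
      show (compare ((emb (Cell.l v s' t)).1 0) ((emb (Cell.x v' c' t')).1 0) = .eq ∧ _) ↔
        (v = v' ∧ _)
      rw [e0]
      exact and_congr Iff.rfl Iff.rfl
    | l v' s' t' => exact Iff.rfl
    | p u v' c' h => exact Iff.rfl
    | e u v' c' h => exact Iff.rfl
  | p u v c h =>
    cases s with
    | x v' c' t' =>
      show (compare ((emb (Cell.p u v c h)).1 0) ((emb (Cell.x v' c' t')).1 0) = .eq ∧ _) ↔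
        (u = v' ∧ _)
      rw [e0]
      exact and_congr Iff.rfl Iff.rfl
    | l v' s' t' => exact Iff.rfl
    | p u' v' c' h' =>
      show (compare ((emb (Cell.p u v c h)).1 0) ((emb (Cell.p u' v' c' h')).1 0) = .eq ∧
        compare ((emb (Cell.p u v c h)).1 1) ((emb (Cell.p u' v' c' h')).1 1) = .eq ∧ _) ↔
        (u = u' ∧ v = v' ∧ _)
      rw [e0, e1]
      exact Iff.rfl
    | e u' v' c' h' =>
      show (compare ((emb (Cell.p u v c h)).1 0) ((emb (Cell.e u' v' c' h')).1 0) = .eq ∧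
        compare ((emb (Cell.p u v c h)).1 1) ((emb (Cell.e u' v' c' h')).1 1) = .eq ∧ _) ↔
        (u' = u ∧ v' = v ∧ _)
      rw [e0, e1]
      exact and_congr eq_comm (and_congr eq_comm Iff.rfl)
  | e u v c h =>
    cases s with
    | x v' c' t' =>
      show (compare ((emb (Cell.e u v c h)).1 1) ((emb (Cell.x v' c' t')).1 1) = .eq ∧
        c = c' ∧ decide (G.Adj u v) = true ∧ _) ↔ (v = v' ∧ c = c' ∧ G.Adj u v ∧ _)
      rw [e1, decide_eq_true_iff]
      exact Iff.rfl
    | l v' s' t' => exact Iff.rfl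
    | p u' v' c' h' =>
      show (compare ((emb (Cell.e u v c h)).1 0) ((emb (Cell.p u' v' c' h')).1 0) = .eq ∧
        compare ((emb (Cell.e u v c h)).1 1) ((emb (Cell.p u' v' c' h')).1 1) = .eq ∧ _) ↔
        (u = u' ∧ v = v' ∧ _)
      rw [e0, e1]
      exact Iff.rfl
    | e u' v' c' h' => exact Iff.rfl

/-- the relation of the further indices to the main ones -/
def DT : Tup k → Cell k → Prop
  | (a, .inr (τ, _)), r => padLe τ (kd r) (compare (a 0) (c0 r)) (compare (a 1) (c1 r))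
  | (_, .inl _), _ => False

theorem rt_emb_left (r : Cell k) {j : Tup k} (hj : j ∉ Set.range (emb (k := k))) :
    RT G (emb r) j ↔ DT j r := by
  obtain ⟨a, i | ⟨τ, o⟩⟩ := j
  · constructor
    · intro h
      exact (hj (mem_range_of_isMK h.2.1)).elim
    · intro h
      exact h.elim
  · exact ⟨fun h => h.2, fun h => ⟨isMK_emb r, h⟩⟩

theorem rt_emb_right (r : Cell k) {j : Tup k} (hj : j ∉ Set.range (emb (k := k))) :
    RT G j (emb r) ↔ DT j r := by
  obtain ⟨a, i | ⟨τ, o⟩⟩ := j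
  · constructor
    · intro h
      exact (hj (mem_range_of_isMK h.1)).elim
    · intro h
      exact h.elim
  · exact ⟨fun h => h.2, fun h => ⟨isMK_emb r, h⟩⟩

theorem not_rt {j j' : Tup k} (hj : j ∉ Set.range (emb (k := k)))
    (hj' : j' ∉ Set.range (emb (k := k))) : ¬ RT G j j' := by
  obtain ⟨a, i | ⟨τ, o⟩⟩ := j
  · obtain ⟨a', i' | ⟨τ', o'⟩⟩ := j'
    · intro h
      exact hj (mem_range_of_isMK h.1)
    · intro h
      exact hj (mem_range_of_isMK h.1)
  · obtain ⟨a', i' | ⟨τ', o'⟩⟩ := j'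
    · intro h
      exact hj' (mem_range_of_isMK h.1)
    · intro h
      exact h

/-- the further indices -/
abbrev JT (k : ℕ) := {j : Tup k // j ∉ Set.range (emb (k := k))}

noncomputable instance (k : ℕ) : Fintype (JT k) := Fintype.ofFinite _

/-- the relation of the further indices -/
def DJ (j : JT k) (r : Cell k) : Prop := DT j.1 r

/-- the class of a main index in the lexicographic order -/
def cl (r : Cell k) : Fin 10 ×ₗ (Fin k ×ₗ Fin k) := toLex (ty (kd r), toLex (c0 r, c1 r))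

theorem padLe_iff (τ : Fin 10) (u v : Fin k) (r : Cell k) :
    padLe τ (kd r) (compare u (c0 r)) (compare v (c1 r)) ↔
      (toLex (τ, toLex (u, v)) : Fin 10 ×ₗ (Fin k ×ₗ Fin k)) ≤ cl r := by
  unfold padLe cl
  rw [Prod.Lex.toLex_le_toLex, Prod.Lex.toLex_le_toLex]
  rw [compare_lt_iff_lt, compare_eq_iff_eq, compare_le_iff_le]

/-- number of classes up to the class of `r` -/
noncomputable def NT (r : Cell k) : ℕ :=
  Nat.card {q : Fin 10 ×ₗ (Fin k ×ₗ Fin k) // q ≤ cl r}

theorem same_iff (r r' : Cell k) : Same r r' ↔ cl r = cl r' := by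
  have key : cl r = cl r' ↔ ty (kd r) = ty (kd r') ∧ c0 r = c0 r' ∧ c1 r = c1 r' := by
    unfold cl
    rw [EmbeddingLike.apply_eq_iff_eq, Prod.mk.injEq, EmbeddingLike.apply_eq_iff_eq,
      Prod.mk.injEq]
  rw [key]
  cases r with
  | x v c t =>
    cases r' with
    | x v' c' t' =>
      simp only [Same, kd, ty, c0, c1, Fin.mk.injEq, Fin.ext_iff]
      tauto
    | l v' s' t' =>
      simp only [Same, kd, ty, c0, c1, Fin.mk.injEq, false_iff]
      omega
    | p u v' c' h =>
      simp only [Same, kd, ty, c0, c1, Fin.mk.injEq, false_iff]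
      omega
    | e u v' c' h =>
      simp only [Same, kd, ty, c0, c1, Fin.mk.injEq, false_iff]
      omega
  | l v s' t =>
    cases r' with
    | x v' c' t' =>
      simp only [Same, kd, ty, c0, c1, Fin.mk.injEq, false_iff]
      omega
    | l v' s' t' =>
      simp only [Same, kd, ty, c0, c1, Fin.mk.injEq]
      tauto
    | p u v' c' h =>
      simp only [Same, kd, ty, c0, c1, Fin.mk.injEq, false_iff]
      omega
    | e u v' c' h =>
      simp only [Same, kd, ty, c0, c1, Fin.mk.injEq, false_iff]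
      omega
  | p u v c h =>
    cases r' with
    | x v' c' t' =>
      simp only [Same, kd, ty, c0, c1, Fin.mk.injEq, false_iff]
      omega
    | l v' s' t' =>
      simp only [Same, kd, ty, c0, c1, Fin.mk.injEq, false_iff]
      omega
    | p u' v' c' h' =>
      simp only [Same, kd, ty, c0, c1, Fin.mk.injEq, Fin.ext_iff]
      constructor
      · rintro ⟨h1, h2, h3⟩
        exact ⟨by omega, h1, h2⟩
      · rintro ⟨h1, h2, h3⟩
        exact ⟨h2, h3, by omega⟩
    | e u' v' c' h' =>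
      simp only [Same, kd, ty, c0, c1, Fin.mk.injEq, false_iff]
      omega
  | e u v c h =>
    cases r' with
    | x v' c' t' =>
      simp only [Same, kd, ty, c0, c1, Fin.mk.injEq, false_iff]
      omega
    | l v' s' t' =>
      simp only [Same, kd, ty, c0, c1, Fin.mk.injEq, false_iff]
      omega
    | p u' v' c' h' =>
      simp only [Same, kd, ty, c0, c1, Fin.mk.injEq, false_iff]
      omega
    | e u' v' c' h' =>
      simp only [Same, kd, ty, c0, c1, Fin.mk.injEq, Fin.ext_iff]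
      constructor
      · rintro ⟨h1, h2, h3⟩
        exact ⟨by omega, h1, h2⟩
      · rintro ⟨h1, h2, h3⟩
        exact ⟨h2, h3, by omega⟩

/-- further indices related to `r` -/
def padEquiv (r : Cell k) : {j : JT k // DJ j r} ≃
    {q : Fin 10 ×ₗ (Fin k ×ₗ Fin k) // q ≤ cl r} × (Fin k × Fin k × Option MK) where
  toFun
    | ⟨⟨(a, .inr (τ, o)), _⟩, h⟩ => (⟨toLex (τ, toLex (a 0, a 1)), (padLe_iff _ _ _ _).1 h⟩,
        (a 2, a 3, o))
    | ⟨⟨(_, .inl _), _⟩, h⟩ => h.elim
  invFun w := ⟨⟨(![(ofLex (ofLex w.1.1).2).1, (ofLex (ofLex w.1.1).2).2, w.2.1, w.2.2.1],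
      .inr ((ofLex w.1.1).1, w.2.2.2)), by
        rintro ⟨r', h⟩
        have h1 := congrArg Prod.snd h
        exact absurd h1 (by simp [emb])⟩, (padLe_iff _ _ _ _).2 w.1.2⟩
  left_inv := by
    rintro ⟨⟨⟨a, i | ⟨τ, o⟩⟩, h1⟩, h2⟩
    · exact h2.elim
    · refine Subtype.ext (Subtype.ext (Prod.ext (funext fun q => ?_) rfl))
      fin_cases q <;> rfl
  right_inv := by
    rintro ⟨⟨q, hq⟩, w, z, o⟩
    rfl

theorem NT_inj {r r' : Cell k} (h : NT r = NT r') : cl r = cl r' := by
  classical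
  have key : ∀ x y : Fin 10 ×ₗ (Fin k ×ₗ Fin k), x < y →
      Nat.card {q // q ≤ x} < Nat.card {q : Fin 10 ×ₗ (Fin k ×ₗ Fin k) // q ≤ y} := by
    intro x y hxy
    rw [Nat.card_eq_fintype_card, Nat.card_eq_fintype_card, Fintype.card_subtype,
      Fintype.card_subtype]
    refine Finset.card_lt_card ⟨fun q hq => ?_, fun hsub => ?_⟩
    · rw [Finset.mem_filter] at hq ⊢
      exact ⟨hq.1, hq.2.trans hxy.le⟩
    · have h1 := hsub (Finset.mem_filter.2 ⟨Finset.mem_univ y, le_rfl⟩)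
      exact absurd (Finset.mem_filter.1 h1).2 (not_le.2 hxy)
  rcases lt_trichotomy (cl r) (cl r') with h1 | h1 | h1
  · have := key _ _ h1
    unfold NT at h
    omega
  · exact h1
  · have := key _ _ h1
    unfold NT at h
    omega

theorem sep_tup (hk : 0 < k) : Sep (DJ (k := k)) (35 * k ^ 2) NT where
  congr := by
    rintro ⟨⟨a, i | ⟨τ, o⟩⟩, hj⟩ r r' h
    · exact Iff.rfl
    · show padLe τ (kd r) (compare (a 0) (c0 r)) (compare (a 1) (c1 r)) ↔
        padLe τ (kd r') (compare (a 0) (c0 r')) (compare (a 1) (c1 r'))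
      rw [padLe_iff, padLe_iff, (same_iff r r').1 h]
  big := by
    rw [card_cell]
    nlinarith
  deg r := by
    rw [Nat.card_congr (padEquiv r), Nat.card_prod]
    have h1 : Nat.card (Fin k × Fin k × Option MK) = 35 * k ^ 2 := by
      rw [Nat.card_eq_fintype_card, Fintype.card_prod, Fintype.card_prod, Fintype.card_option,
        card_mk, Fintype.card_fin]
      ring
    rw [h1]
    exact mul_comm _ _
  pos r := by
    have : Nonempty {q : Fin 10 ×ₗ (Fin k ×ₗ Fin k) // q ≤ cl r} := ⟨⟨cl r, le_rfl⟩⟩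
    exact Nat.card_pos
  inj r r' h := (same_iff r r').2 (NT_inj h)

/-- Transport of the symmetry condition. -/
theorem transport {α β : Type} (E : α ≃ β) {Ra : α → α → Prop} {Rb : β → β → Prop}
    (h : ∀ a b, Ra a b ↔ Rb (E a) (E b)) :
    (∃ π : Equiv.Perm α, ∀ r s, Ra (π r) s ↔ Ra (π s) r) ↔
      ∃ π : Equiv.Perm β, ∀ r s, Rb (π r) s ↔ Rb (π s) r := by
  constructor
  · rintro ⟨π, hπ⟩
    refine ⟨(E.symm.trans π).trans E, fun r s => ?_⟩
    have h1 := hπ (E.symm r) (E.symm s)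
    rw [h, h] at h1
    simpa using h1
  · rintro ⟨π, hπ⟩
    refine ⟨(E.trans π).trans E.symm, fun r s => ?_⟩
    rw [h, h]
    simpa using hπ (E r) (E s)

/-- The main equivalence on tuples. -/
theorem main_tup (hk : 0 < k) (G : SimpleGraph (Fin k)) : G.Colorable 3 ↔
    ∃ π : Equiv.Perm (Tup k), ∀ r s, RT G (π r) s ↔ RT G (π s) r := by
  classical
  rw [main (G := G) (sep_tup hk)]
  refine transport (((Equiv.ofInjective _ emb_injective).sumCongr (Equiv.refl _)).trans
    (Equiv.Set.sumCompl (Set.range (emb (k := k))))) ?_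
  rintro (r | j) (s | j')
  · exact (rt_emb r s).symm
  · exact (rt_emb_left r j'.2).symm
  · exact (rt_emb_right s j.2).symm
  · exact ⟨fun h => h.elim, fun h => (not_rt j.2 j'.2 h).elim⟩

end

end Pool.Agent.Lib.MP_e2e0ab_lc
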